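import Pool.Agent.H27.L1.H68.GHY.Targets
import Pool.Agent.H27.L1.H11.GZ.HLD

/-!
# Row DYD of the board ghy (MP_52e316_nt): dyadic decomposition of the truncated L-function
-/

set_option autoImplicit false

namespace Pool.Agent.H27.L1.H11.GHY

open MeasureTheory Pool.Agent.H27.L1.H34.GM Pool.Agent.H27.L1.H34.GZ Pool.Agent.H27.L1.H34.GU Pool.Agent.H27.L1.H34.GA
open Pool.Agent.H27.L1.H68.GHY
open Pool.Agent.H27.L1.H11.GZ (log_bd)

/-- the sum over one dyadic block -/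
noncomputable def Bl (f : ℕ → ℂ) (y : ℝ) : ℂ :=
  ∑ n ∈ Finset.Icc 1 ⌊y⌋₊, if y / 2 < (n : ℝ) ∧ (n : ℝ) ≤ y then f n else 0

theorem step (f : ℕ → ℂ) {y : ℝ} (hy : 0 ≤ y) :
    ∑ n ∈ Finset.Icc 1 ⌊y⌋₊, f n = Bl f y + ∑ n ∈ Finset.Icc 1 ⌊y / 2⌋₊, f n := by
  have h1 : ∑ n ∈ Finset.Icc 1 ⌊y / 2⌋₊, f n =
      ∑ n ∈ Finset.Icc 1 ⌊y⌋₊, if y / 2 < (n : ℝ) ∧ (n : ℝ) ≤ y then 0 else f n := by
    have h2 : ∑ n ∈ Finset.Icc 1 ⌊y / 2⌋₊, f n =
        ∑ n ∈ Finset.Icc 1 ⌊y / 2⌋₊, if y / 2 < (n : ℝ) ∧ (n : ℝ) ≤ y then 0 else f n := by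
      refine Finset.sum_congr rfl fun n hn => ?_
      rw [Finset.mem_Icc] at hn
      have h3 : (n : ℝ) ≤ y / 2 := (Nat.le_floor_iff (by linarith)).1 hn.2
      rw [if_neg]
      rintro ⟨h4, -⟩
      linarith
    rw [h2]
    have hle : ⌊y / 2⌋₊ ≤ ⌊y⌋₊ := Nat.floor_le_floor (by linarith)
    apply Finset.sum_subset (Finset.Icc_subset_Icc le_rfl hle)
    intro n hn hn'
    rw [Finset.mem_Icc] at hn hn'
    rw [if_pos]
    have h3 : (n : ℝ) ≤ y := (Nat.le_floor_iff hy).1 hn.2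
    refine ⟨?_, h3⟩
    by_contra h4
    exact hn' ⟨hn.1, Nat.le_floor (not_lt.1 h4)⟩
  rw [h1]
  unfold Bl
  rw [← Finset.sum_add_distrib]
  refine Finset.sum_congr rfl fun n _ => ?_
  split_ifs <;> simp

theorem steps (f : ℕ → ℂ) {X : ℝ} (hX : 0 ≤ X) (M : ℕ) :
    ∑ n ∈ Finset.Icc 1 ⌊X⌋₊, f n =
      (∑ j ∈ Finset.range M, Bl f (X / 2 ^ j)) + ∑ n ∈ Finset.Icc 1 ⌊X / 2 ^ M⌋₊, f n := by
  induction M with
  | zero => simp
  | succ M ih =>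
    rw [ih, Finset.sum_range_succ, step f (y := X / 2 ^ M) (by positivity), div_div, ← pow_succ,
      add_assoc]

theorem steps' (f : ℕ → ℂ) {X : ℝ} (hX : 0 ≤ X) {M : ℕ} (hM : X < 2 ^ M) :
    ∑ n ∈ Finset.Icc 1 ⌊X⌋₊, f n = ∑ j ∈ Finset.range M, Bl f (X / 2 ^ j) := by
  rw [steps f hX M]
  have h1 : ⌊X / 2 ^ M⌋₊ = 0 := by
    rw [Nat.floor_eq_zero, div_lt_one (by positivity)]
    exact hM
  rw [h1]
  simp

open Classical in
/-- coefficients of a block -/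
noncomputable def blk (m : ℕ) (τ y : ℝ) (n : ℕ) : ℂ :=
  if y / 2 < (n : ℝ) ∧ (n : ℝ) ≤ y then
    (((y / 2) ^ ((m : ℝ) / 2) : ℝ) : ℂ) * (n : ℂ) ^ (-((m : ℂ) / 2) - (τ : ℂ) * Complex.I) else 0

theorem coe_blk (m : ℕ) (τ : ℝ) {y : ℝ} (hy : 1 ≤ y) : Coe y (blk m τ y) := by
  constructor
  · intro n
    unfold blk
    split_ifs with h
    · have hn : (0 : ℝ) < n := by linarith [h.1]
      have hn' : 0 < n := by exact_mod_cast hn
      have hy2 : (0 : ℝ) < y / 2 := by linarith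
      rw [norm_mul, Complex.norm_natCast_cpow_of_pos hn', Complex.norm_real, Real.norm_eq_abs,
        abs_of_nonneg (Real.rpow_nonneg hy2.le _)]
      have e : (-((m : ℂ) / 2) - (τ : ℂ) * Complex.I).re = -((m : ℝ) / 2) := by
        simp
      rw [e, Real.rpow_neg hn.le, ← div_eq_mul_inv]
      rw [div_le_one (Real.rpow_pos_of_pos hn _)]
      exact Real.rpow_le_rpow hy2.le h.1.le (by positivity)
    · simp
  · intro n hn
    unfold blk at hn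
    split_ifs at hn with h
    · exact h
    · exact absurd rfl hn

theorem block (m : ℕ) (lam : ℕ → ℂ) (τ t : ℝ) {y : ℝ} (hy : 1 ≤ y) :
    Bl (fun n => lam n * (n : ℂ) ^ (-(1 / 2 + ((t + τ : ℝ) : ℂ) * Complex.I))) y =
      (((y / 2) ^ (-((m : ℝ) / 2)) : ℝ) : ℂ) * DP m lam (blk m τ y) y t := by
  unfold Bl DP tl
  rw [Finset.mul_sum]
  refine Finset.sum_congr rfl fun n hn => ?_
  rw [Finset.mem_Icc] at hn
  unfold blk
  have hn0 : (n : ℂ) ≠ 0 := by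
    have : 0 < n := hn.1
    exact_mod_cast this.ne'
  have hy2 : (0 : ℝ) < y / 2 := by linarith
  split_ifs with h
  · have e1 : (((y / 2) ^ (-((m : ℝ) / 2)) : ℝ) : ℂ) * (((y / 2) ^ ((m : ℝ) / 2) : ℝ) : ℂ) = 1 := by
      rw [← Complex.ofReal_mul, ← Real.rpow_add hy2]
      simp
    have e2 : (n : ℂ) ^ (-(1 / 2 + ((t + τ : ℝ) : ℂ) * Complex.I)) =
        (n : ℂ) ^ (-((m : ℂ) / 2) - (τ : ℂ) * Complex.I) * (n : ℂ) ^ (((m : ℂ) - 1) / 2) *
          (n : ℂ) ^ (-((t : ℂ) * Complex.I)) := by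
      rw [← Complex.cpow_add _ _ hn0, ← Complex.cpow_add _ _ hn0]
      congr 1
      push_cast
      ring
    show lam n * (n : ℂ) ^ (-(1 / 2 + ((t + τ : ℝ) : ℂ) * Complex.I)) = _
    rw [e2]
    calc lam n * ((n : ℂ) ^ (-((m : ℂ) / 2) - (τ : ℂ) * Complex.I) *
          (n : ℂ) ^ (((m : ℂ) - 1) / 2) * (n : ℂ) ^ (-((t : ℂ) * Complex.I)))
        = 1 * (lam n * ((n : ℂ) ^ (-((m : ℂ) / 2) - (τ : ℂ) * Complex.I) *
          (n : ℂ) ^ (((m : ℂ) - 1) / 2) * (n : ℂ) ^ (-((t : ℂ) * Complex.I)))) := by ring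
      _ = _ := by
        rw [← e1]
        ring
  · ring

theorem cont_DP (m : ℕ) (lam a : ℕ → ℂ) (y : ℝ) : Continuous (DP m lam a y) := by
  unfold DP
  refine continuous_finsetSum _ fun n hn => ?_
  rw [Finset.mem_Icc] at hn
  have hn0 : (n : ℂ) ≠ 0 := by
    have : 0 < n := hn.1
    exact_mod_cast this.ne'
  refine continuous_const.mul ?_
  refine Continuous.const_cpow ?_ (Or.inl hn0)
  exact (Complex.continuous_ofReal.mul continuous_const).neg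

/-- the number of the blocks -/
theorem blocks {X : ℝ} (hX : 1 ≤ X) : ∃ M : ℕ, X < 2 ^ M ∧ (∀ j < M, (2 : ℝ) ^ j ≤ X) ∧
    (M : ℝ) ≤ 2 * (1 + Real.log X) := by
  have h0 : ⌊X⌋₊ ≠ 0 := by
    have : 0 < ⌊X⌋₊ := Nat.floor_pos.2 hX
    omega
  have h1 : (⌊X⌋₊ : ℝ) ≤ X := Nat.floor_le (by linarith)
  have h2 : ∀ j ≤ Nat.log 2 ⌊X⌋₊, (2 : ℝ) ^ j ≤ X := by
    intro j hj
    have h3 : 2 ^ j ≤ ⌊X⌋₊ :=
      (Nat.pow_le_pow_right (by norm_num) hj).trans (Nat.pow_log_le_self 2 h0)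
    have h4 : ((2 ^ j : ℕ) : ℝ) ≤ (⌊X⌋₊ : ℝ) := by exact_mod_cast h3
    rw [Nat.cast_pow] at h4
    exact_mod_cast h4.trans h1
  refine ⟨Nat.log 2 ⌊X⌋₊ + 1, ?_, fun j hj => h2 j (by omega), ?_⟩
  · have h3 : ⌊X⌋₊ < 2 ^ (Nat.log 2 ⌊X⌋₊ + 1) := Nat.lt_pow_succ_log_self (by norm_num) _
    have h4 : ((⌊X⌋₊ : ℝ)) + 1 ≤ ((2 ^ (Nat.log 2 ⌊X⌋₊ + 1) : ℕ) : ℝ) := by exact_mod_cast h3
    have h5 : X < ⌊X⌋₊ + 1 := Nat.lt_floor_add_one X
    rw [Nat.cast_pow] at h4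
    push_cast at h4 ⊢
    linarith
  · have h3 := h2 _ le_rfl
    have h4 := Real.log_le_log (by positivity) h3
    rw [Real.log_pow] at h4
    have h5 : (1 / 2 : ℝ) ≤ Real.log 2 := by
      have := Real.log_two_gt_d9
      linarith
    have h6 : (0 : ℝ) ≤ (Nat.log 2 ⌊X⌋₊ : ℝ) := Nat.cast_nonneg _
    have h7 : 0 ≤ Real.log X := Real.log_nonneg hX
    push_cast
    nlinarith

/-- the numerical part -/
theorem final (m K : ℕ) {ε A : ℝ} (hε : 0 < ε) (hA : 1 ≤ A) :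
    ∃ C : ℝ, 0 < C ∧ ∀ (Nr d X Ml : ℝ), 1 ≤ Nr → 2 ≤ d → 1 ≤ X →
      X ≤ A * (Nr ^ ((1 : ℝ) / 2) * d ^ ((m : ℝ) / 2)) * (Nr * d) ^ ε →
      0 ≤ Ml → Ml ≤ 2 * (1 + Real.log X) →
      Ml ^ 4 * (Nr ^ ((m : ℝ) + ε) * ((1 + Real.log (X * Nr * d)) ^ K *
        (1 + d⁻¹ ^ m * X ^ 2 / Nr) ^ m)) ≤
        C * ((Nr * d) ^ ((2 * m + 4) * ε) * Nr ^ m) := by
  have hA0 : (0 : ℝ) < A := by linarith
  set B0 : ℝ := 1 / 2 + (m : ℝ) / 2 + ε + 1 with hB0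
  have hB00 : 0 < B0 := by positivity
  set s : ℝ := ε / B0 with hs
  have hs0 : 0 < s := div_pos hε hB00
  set CL : ℝ := (1 + 1 / (s / (((K + 4 : ℕ) : ℝ) + 1))) ^ (K + 4) with hCL
  have hCL0 : 0 < CL := by positivity
  refine ⟨16 * (CL * A ^ s) * (2 * A ^ 2) ^ m, by positivity, ?_⟩
  intro Nr d X Ml hN hd hX hXle hM0 hM
  have hN0 : (0 : ℝ) < Nr := by linarith
  have hd0 : (0 : ℝ) < d := by linarith
  have hX0 : (0 : ℝ) < X := by linarith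
  set Q : ℝ := Nr * d with hQ
  have hQ1 : 1 ≤ Q := by nlinarith
  have hQ0 : (0 : ℝ) < Q := by linarith
  have hNQ : Nr ≤ Q := by nlinarith
  have hdQ : d ≤ Q := by nlinarith
  -- the length
  have hXQ : X * Nr * d ≤ A * Q ^ B0 := by
    have h1 : Nr ^ ((1 : ℝ) / 2) ≤ Q ^ ((1 : ℝ) / 2) :=
      Real.rpow_le_rpow hN0.le hNQ (by norm_num)
    have h2 : d ^ ((m : ℝ) / 2) ≤ Q ^ ((m : ℝ) / 2) :=
      Real.rpow_le_rpow hd0.le hdQ (by positivity)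
    have h3 : X ≤ A * (Q ^ ((1 : ℝ) / 2) * Q ^ ((m : ℝ) / 2)) * Q ^ ε := by
      refine hXle.trans ?_
      refine mul_le_mul_of_nonneg_right ?_ (Real.rpow_nonneg hQ0.le _)
      refine mul_le_mul_of_nonneg_left ?_ hA0.le
      exact mul_le_mul h1 h2 (Real.rpow_nonneg hd0.le _) (Real.rpow_nonneg hQ0.le _)
    have e : A * Q ^ B0 = A * (Q ^ ((1 : ℝ) / 2) * Q ^ ((m : ℝ) / 2)) * Q ^ ε * Q := by
      rw [hB0, Real.rpow_add hQ0, Real.rpow_add hQ0, Real.rpow_add hQ0, Real.rpow_one]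
      ring
    rw [e, mul_assoc X, ← hQ]
    exact mul_le_mul_of_nonneg_right h3 hQ0.le
  have hXQ1 : 1 ≤ X * Nr * d := by
    rw [mul_assoc, ← hQ]
    nlinarith
  have hlX : Real.log X ≤ Real.log (X * Nr * d) := by
    apply Real.log_le_log hX0
    rw [mul_assoc, ← hQ]
    nlinarith
  set L : ℝ := 1 + Real.log (X * Nr * d) with hL
  have hL1 : 1 ≤ L := by
    have := Real.log_nonneg hXQ1
    linarith
  have hM4 : Ml ^ 4 ≤ 16 * L ^ 4 := by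
    have h1 : Ml ≤ 2 * L := by
      refine hM.trans ?_
      linarith
    calc Ml ^ 4 ≤ (2 * L) ^ 4 := pow_le_pow_left₀ hM0 h1 4
      _ = 16 * L ^ 4 := by ring
  have hLp : L ^ (K + 4) ≤ CL * A ^ s * Q ^ ε := by
    have h1 := log_bd (K + 4) hs0 hXQ1
    have h2 : (X * Nr * d) ^ s ≤ A ^ s * Q ^ ε := by
      have h3 : (X * Nr * d) ^ s ≤ (A * Q ^ B0) ^ s :=
        Real.rpow_le_rpow (by linarith) hXQ hs0.le
      rw [Real.mul_rpow hA0.le (Real.rpow_nonneg hQ0.le _), ← Real.rpow_mul hQ0.le] at h3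
      have e : B0 * s = ε := by
        rw [hs]
        field_simp
      rwa [e] at h3
    calc L ^ (K + 4) ≤ CL * (X * Nr * d) ^ s := h1
      _ ≤ CL * (A ^ s * Q ^ ε) := mul_le_mul_of_nonneg_left h2 hCL0.le
      _ = _ := by ring
  have hNe : Nr ^ ((m : ℝ) + ε) ≤ Nr ^ m * Q ^ ε := by
    rw [Real.rpow_add hN0, Real.rpow_natCast]
    exact mul_le_mul_of_nonneg_left (Real.rpow_le_rpow hN0.le hNQ hε.le) (by positivity)
  have hX2 : d⁻¹ ^ m * X ^ 2 / Nr ≤ A ^ 2 * Q ^ (2 * ε) := by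
    have h1 : X ^ 2 ≤ (A * (Nr ^ ((1 : ℝ) / 2) * d ^ ((m : ℝ) / 2)) * Q ^ ε) ^ 2 :=
      pow_le_pow_left₀ hX0.le hXle 2
    have e1 : (Nr ^ ((1 : ℝ) / 2)) ^ 2 = Nr := by
      rw [← Real.rpow_natCast, ← Real.rpow_mul hN0.le]
      norm_num
    have e2 : (d ^ ((m : ℝ) / 2)) ^ 2 = d ^ m := by
      rw [← Real.rpow_natCast, ← Real.rpow_mul hd0.le, ← Real.rpow_natCast]
      congr 1
      push_cast
      ring
    have e3 : (Q ^ ε) ^ 2 = Q ^ (2 * ε) := by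
      rw [← Real.rpow_natCast, ← Real.rpow_mul hQ0.le]
      congr 1
      push_cast
      ring
    have e4 : (A * (Nr ^ ((1 : ℝ) / 2) * d ^ ((m : ℝ) / 2)) * Q ^ ε) ^ 2 =
        A ^ 2 * (Nr * d ^ m) * Q ^ (2 * ε) := by
      rw [mul_pow, mul_pow, mul_pow, e1, e2, e3]
    rw [e4] at h1
    have hdm : (0 : ℝ) < d ^ m := pow_pos hd0 m
    rw [div_le_iff₀ hN0, inv_pow, inv_mul_le_iff₀ hdm]
    refine h1.trans (le_of_eq ?_)
    ring
  have hQ2 : 1 ≤ A ^ 2 * Q ^ (2 * ε) := by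
    have h1 : (1 : ℝ) ≤ A ^ 2 := one_le_pow₀ hA
    have h2 : (1 : ℝ) ≤ Q ^ (2 * ε) := Real.one_le_rpow hQ1 (by positivity)
    nlinarith
  have hX2m : (1 + d⁻¹ ^ m * X ^ 2 / Nr) ^ m ≤ (2 * A ^ 2) ^ m * Q ^ (2 * m * ε) := by
    have h1 : 1 + d⁻¹ ^ m * X ^ 2 / Nr ≤ 2 * A ^ 2 * Q ^ (2 * ε) := by linarith
    have h2 : 0 ≤ 1 + d⁻¹ ^ m * X ^ 2 / Nr := by positivity
    refine (pow_le_pow_left₀ h2 h1 m).trans (le_of_eq ?_)
    rw [mul_pow]
    congr 1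
    rw [← Real.rpow_natCast, ← Real.rpow_mul hQ0.le]
    congr 1
    ring
  have hL0 : 0 ≤ L := by linarith
  have hT0 : 0 ≤ (1 + d⁻¹ ^ m * X ^ 2 / Nr) ^ m := by positivity
  calc Ml ^ 4 * (Nr ^ ((m : ℝ) + ε) * (L ^ K * (1 + d⁻¹ ^ m * X ^ 2 / Nr) ^ m))
      ≤ (16 * L ^ 4) * ((Nr ^ m * Q ^ ε) * (L ^ K * ((2 * A ^ 2) ^ m * Q ^ (2 * m * ε)))) := by
        refine mul_le_mul hM4 ?_ (by positivity) (by positivity)
        refine mul_le_mul hNe ?_ (by positivity) (by positivity)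
        exact mul_le_mul_of_nonneg_left hX2m (by positivity)
    _ = 16 * L ^ (K + 4) * ((Nr ^ m * Q ^ ε) * ((2 * A ^ 2) ^ m * Q ^ (2 * m * ε))) := by
        rw [pow_add]
        ring
    _ ≤ 16 * (CL * A ^ s * Q ^ ε) *
          ((Nr ^ m * Q ^ ε) * ((2 * A ^ 2) ^ m * Q ^ (2 * m * ε))) := by
        refine mul_le_mul_of_nonneg_right ?_ (by positivity)
        exact mul_le_mul_of_nonneg_left hLp (by norm_num)
    _ = 16 * (CL * A ^ s) * (2 * A ^ 2) ^ m * ((Q ^ ε * Q ^ ε * Q ^ (2 * m * ε)) * Nr ^ m) := by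
        ring
    _ ≤ 16 * (CL * A ^ s) * (2 * A ^ 2) ^ m * (Q ^ ((2 * m + 4) * ε) * Nr ^ m) := by
        refine mul_le_mul_of_nonneg_left ?_ (by positivity)
        refine mul_le_mul_of_nonneg_right ?_ (by positivity)
        rw [← Real.rpow_add hQ0, ← Real.rpow_add hQ0]
        refine Real.rpow_le_rpow_of_exponent_le hQ1 ?_
        nlinarith

theorem pf_DYD (hLT : T_LT4) : T_DYD := by
  intro m hm ε A hε hA
  obtain ⟨c, C, K, hc, hC, hlt⟩ := hLT m hm ε hε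
  obtain ⟨C2, hC2, hfin⟩ := final m K hε hA
  refine ⟨c, 2 ^ (2 * m) * C * C2, hc, by positivity, ?_⟩
  intro N _ T D hS ι _ _ F lam P hF hO δ hδ0 hδ1 hδP X hX1 hXle τ
  obtain ⟨M, hM1, hM2, hM3⟩ := blocks hX1
  have hd0 : 0 < δ⁻¹ := inv_pos.2 hδ0
  have hd2 : 2 ≤ δ⁻¹ := by
    rw [le_inv_comm₀ (by norm_num) hδ0]
    rw [one_div] at hδ1
    exact hδ1
  have hN2 : (1 : ℝ) ≤ N := by exact_mod_cast hS.two_le
  have hN0 : (0 : ℝ) < N := by linarith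
  have hX0 : 0 < X := by linarith
  have hNd : 1 ≤ (N : ℝ) * δ⁻¹ := by nlinarith
  set W : ℝ := C * δ⁻¹ ^ (m ^ 2) * (N : ℝ) ^ ((m : ℝ) + ε) *
    ((1 + Real.log (X * N * δ⁻¹)) ^ K * (1 + δ ^ m * X ^ 2 / N) ^ m) with hW
  let y : ℕ → ℝ := fun j => X / 2 ^ j
  have hy1 : ∀ j < M, 1 ≤ y j := by
    intro j hj
    show 1 ≤ X / 2 ^ j
    rw [le_div_iff₀ (by positivity), one_mul]
    exact hM2 j hj
  have hyX : ∀ j, y j ≤ X := fun j => div_le_self hX0.le (one_le_pow₀ one_le_two)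
  have hlog : ∀ z : ℝ, 1 ≤ z → 0 ≤ Real.log (z * N * δ⁻¹) := by
    intro z hz
    apply Real.log_nonneg
    rw [mul_assoc]
    nlinarith
  have hW0 : 0 ≤ W := by
    have := hlog X hX1
    positivity
  let G : ι → ℕ → ℝ → ENNReal := fun i j t =>
    ENNReal.ofReal (‖DP m (lam i) (blk m τ (y j)) (y j) t‖ ^ 4)
  have hG : ∀ i j, Measurable (G i j) := by
    intro i j
    exact ((cont_DP m (lam i) (blk m τ (y j)) (y j)).norm.pow 4).measurable.ennreal_ofReal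
  have hb : ∀ j < M, ∑ i, ∫⁻ t in Set.Icc (-δ⁻¹) δ⁻¹, G i j t ≤
      ENNReal.ofReal (W * y j ^ (2 * m)) := by
    intro j hj
    have hyj := hy1 j hj
    have hyj0 : 0 < y j := by linarith
    refine (hlt N T D hS ι F lam P hF hO δ hδ0 hδ1 hδP (y j) (blk m τ (y j)) hyj
      (coe_blk m τ hyj)).trans (ENNReal.ofReal_le_ofReal ?_)
    have h1 : 0 ≤ Real.log (y j * N * δ⁻¹) := hlog _ hyj
    have h2 : Real.log (y j * N * δ⁻¹) ≤ Real.log (X * N * δ⁻¹) := by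
      apply Real.log_le_log (by positivity)
      have := hyX j
      gcongr
    have h3 : (1 + Real.log (y j * N * δ⁻¹)) ^ K ≤ (1 + Real.log (X * N * δ⁻¹)) ^ K :=
      pow_le_pow_left₀ (by linarith) (by linarith) K
    have h4 : (1 + δ ^ m * y j ^ 2 / N) ^ m ≤ (1 + δ ^ m * X ^ 2 / N) ^ m := by
      have := hyX j
      gcongr
    have h5 : (1 + Real.log (y j * N * δ⁻¹)) ^ K * (1 + δ ^ m * y j ^ 2 / N) ^ m ≤
        (1 + Real.log (X * N * δ⁻¹)) ^ K * (1 + δ ^ m * X ^ 2 / N) ^ m := by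
      refine mul_le_mul h3 h4 (by positivity) ?_
      have := hlog X hX1
      positivity
    calc C * δ⁻¹ ^ (m ^ 2) * (N : ℝ) ^ ((m : ℝ) + ε) * (1 + Real.log (y j * N * δ⁻¹)) ^ K *
          y j ^ (2 * m) * (1 + δ ^ m * y j ^ 2 / N) ^ m
        = C * δ⁻¹ ^ (m ^ 2) * (N : ℝ) ^ ((m : ℝ) + ε) *
          ((1 + Real.log (y j * N * δ⁻¹)) ^ K * (1 + δ ^ m * y j ^ 2 / N) ^ m) *
            y j ^ (2 * m) := by ring
      _ ≤ W * y j ^ (2 * m) := by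
        refine mul_le_mul_of_nonneg_right ?_ (by positivity)
        exact mul_le_mul_of_nonneg_left h5 (by positivity)
  let cj : ℕ → ℝ := fun j => (y j / 2) ^ (-((m : ℝ) / 2))
  have hcj0 : ∀ j < M, 0 ≤ cj j := by
    intro j hj
    have := hy1 j hj
    exact Real.rpow_nonneg (by linarith) _
  have hcy : ∀ j < M, cj j ^ 4 * y j ^ (2 * m) = 2 ^ (2 * m) := by
    intro j hj
    have hyj : 0 < y j := by
      have := hy1 j hj
      linarith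
    have h1 : cj j ^ 4 = ((y j / 2) ^ (2 * m))⁻¹ := by
      show ((y j / 2) ^ (-((m : ℝ) / 2))) ^ 4 = _
      rw [← Real.rpow_natCast, ← Real.rpow_mul (by positivity), ← Real.rpow_natCast,
        ← Real.rpow_neg (by positivity)]
      congr 1
      push_cast
      ring
    rw [h1, div_pow, inv_div]
    have : y j ^ (2 * m) ≠ 0 := (pow_pos hyj _).ne'
    field_simp
  have hpt : ∀ i t, ENNReal.ofReal (‖SD (lam i) X (t + τ)‖ ^ 4) ≤
      ∑ j ∈ Finset.range M, ENNReal.ofReal ((M : ℝ) ^ 3 * cj j ^ 4) * G i j t := by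
    intro i t
    have h1 : SD (lam i) X (t + τ) = ∑ j ∈ Finset.range M,
        ((cj j : ℝ) : ℂ) * DP m (lam i) (blk m τ (y j)) (y j) t := by
      unfold SD
      rw [steps' (fun n => lam i n * (n : ℂ) ^ (-(1 / 2 + ((t + τ : ℝ) : ℂ) * Complex.I)))
        hX0.le hM1]
      refine Finset.sum_congr rfl fun j hj => ?_
      exact block m (lam i) τ t (hy1 j (Finset.mem_range.1 hj))
    have h2 : ‖SD (lam i) X (t + τ)‖ ≤ ∑ j ∈ Finset.range M,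
        cj j * ‖DP m (lam i) (blk m τ (y j)) (y j) t‖ := by
      rw [h1]
      refine (norm_sum_le _ _).trans (le_of_eq ?_)
      refine Finset.sum_congr rfl fun j hj => ?_
      rw [norm_mul, Complex.norm_real, Real.norm_eq_abs,
        abs_of_nonneg (hcj0 j (Finset.mem_range.1 hj))]
    have h3 : ‖SD (lam i) X (t + τ)‖ ^ 4 ≤ ∑ j ∈ Finset.range M,
        ((M : ℝ) ^ 3 * cj j ^ 4) * ‖DP m (lam i) (blk m τ (y j)) (y j) t‖ ^ 4 := by
      have h4 := pow_sum_le_card_mul_sum_pow (s := Finset.range M)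
        (f := fun j => cj j * ‖DP m (lam i) (blk m τ (y j)) (y j) t‖)
        (fun j hj => mul_nonneg (hcj0 j (Finset.mem_range.1 hj)) (norm_nonneg _)) 3
      rw [Finset.card_range] at h4
      refine (pow_le_pow_left₀ (norm_nonneg _) h2 4).trans (h4.trans (le_of_eq ?_))
      rw [Finset.mul_sum]
      refine Finset.sum_congr rfl fun j _ => ?_
      ring
    refine (ENNReal.ofReal_le_ofReal h3).trans (le_of_eq ?_)
    rw [ENNReal.ofReal_sum_of_nonneg]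
    · refine Finset.sum_congr rfl fun j _ => ?_
      rw [ENNReal.ofReal_mul (by positivity)]
    · intro j _
      positivity
  calc ∑ i, ∫⁻ t in Set.Icc (-δ⁻¹) δ⁻¹, ENNReal.ofReal (‖SD (lam i) X (t + τ)‖ ^ 4)
      ≤ ∑ i, ∫⁻ t in Set.Icc (-δ⁻¹) δ⁻¹, ∑ j ∈ Finset.range M,
          ENNReal.ofReal ((M : ℝ) ^ 3 * cj j ^ 4) * G i j t :=
        Finset.sum_le_sum fun i _ => lintegral_mono fun t => hpt i t
    _ = ∑ i, ∑ j ∈ Finset.range M, ENNReal.ofReal ((M : ℝ) ^ 3 * cj j ^ 4) *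
          ∫⁻ t in Set.Icc (-δ⁻¹) δ⁻¹, G i j t := by
        refine Finset.sum_congr rfl fun i _ => ?_
        rw [lintegral_finsetSum _ fun j _ => (hG i j).const_mul _]
        refine Finset.sum_congr rfl fun j _ => ?_
        rw [lintegral_const_mul' _ _ ENNReal.ofReal_ne_top]
    _ = ∑ j ∈ Finset.range M, ENNReal.ofReal ((M : ℝ) ^ 3 * cj j ^ 4) *
          ∑ i, ∫⁻ t in Set.Icc (-δ⁻¹) δ⁻¹, G i j t := by
        rw [Finset.sum_comm]
        refine Finset.sum_congr rfl fun j _ => ?_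
        rw [Finset.mul_sum]
    _ ≤ ∑ j ∈ Finset.range M, ENNReal.ofReal ((M : ℝ) ^ 3 * cj j ^ 4) *
          ENNReal.ofReal (W * y j ^ (2 * m)) :=
        Finset.sum_le_sum fun j hj => mul_le_mul' le_rfl (hb j (Finset.mem_range.1 hj))
    _ = ∑ j ∈ Finset.range M, ENNReal.ofReal ((M : ℝ) ^ 3 * 2 ^ (2 * m) * W) := by
        refine Finset.sum_congr rfl fun j hj => ?_
        rw [← ENNReal.ofReal_mul (by positivity)]
        congr 1
        rw [← hcy j (Finset.mem_range.1 hj)]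
        ring
    _ = ENNReal.ofReal ((M : ℝ) ^ 4 * 2 ^ (2 * m) * W) := by
        rw [Finset.sum_const, Finset.card_range, nsmul_eq_mul, ← ENNReal.ofReal_natCast,
          ← ENNReal.ofReal_mul (by positivity)]
        congr 1
        ring
    _ ≤ ENNReal.ofReal (2 ^ (2 * m) * C * C2 * ((N : ℝ) * δ⁻¹) ^ ((2 * m + 4) * ε) *
          (N : ℝ) ^ m * δ⁻¹ ^ (m ^ 2)) := by
        apply ENNReal.ofReal_le_ofReal
        have h1 := hfin N δ⁻¹ X M hN2 hd2 hX1 hXle (Nat.cast_nonneg _) hM3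
        rw [inv_inv] at h1
        calc (M : ℝ) ^ 4 * 2 ^ (2 * m) * W
            = 2 ^ (2 * m) * C * δ⁻¹ ^ (m ^ 2) * ((M : ℝ) ^ 4 * ((N : ℝ) ^ ((m : ℝ) + ε) *
              ((1 + Real.log (X * N * δ⁻¹)) ^ K * (1 + δ ^ m * X ^ 2 / N) ^ m))) := by
              rw [hW]
              ring
          _ ≤ 2 ^ (2 * m) * C * δ⁻¹ ^ (m ^ 2) *
              (C2 * (((N : ℝ) * δ⁻¹) ^ ((2 * m + 4) * ε) * (N : ℝ) ^ m)) :=
              mul_le_mul_of_nonneg_left h1 (by positivity)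
          _ = _ := by ring

end Pool.Agent.H27.L1.H11.GHY
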